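import Pool.Agent.V11232.GI.Main
import Pool.Agent.Helper247.Univ

namespace Pool.Agent.V11232.GI

section

variable (G H : List (List ℕ))

theorem push_all {P : List (ℕ × Kind × Form)} {S : ℕ} (q : List ℕ)
    (hq : ∀ l ∈ q, ((2 * l + 2, Sum.inr (Sum.inr (Sum.inl (l, 0))), []) : ℕ × Kind × Form) ∈ P)
    (u δ : List ℕ) (γ : Form) :
    Relation.ReflTransGen (Step (S, P)) (δ, u.map Sum.inr ++ (qw q ++ γ))
      (q.reverse ++ δ, (u ++ List.replicate q.length 0).map Sum.inr ++ γ) := by
  induction q generalizing u δ with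
  | nil => simp [qw, Relation.ReflTransGen.refl]
  | cons l q ih =>
    have h1 : Step (S, P) (δ, u.map Sum.inr ++ (Sum.inl (2 * l + 2) :: (qw q ++ γ)))
        (l :: δ, u.map Sum.inr ++ (Sum.inr 0 :: [] ++ (qw q ++ γ))) :=
      Step.push (2 * l + 2) l 0 [] u (qw q ++ γ) δ (hq l (by simp))
    have h2 := ih (fun l' hl' => hq l' (List.mem_cons_of_mem _ hl')) (u ++ [0]) (l :: δ)
    have e1 : ((u ++ [0]).map Sum.inr ++ (qw q ++ γ) : Form) =
        u.map Sum.inr ++ (Sum.inr 0 :: [] ++ (qw q ++ γ)) := by simp
    rw [e1] at h2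
    have h3 := Relation.ReflTransGen.head h1 h2
    have e2 : ((u ++ [0]) ++ List.replicate q.length 0) =
        u ++ List.replicate (l :: q).length 0 := by
      rw [List.append_assoc, List.length_cons, List.replicate_succ]; rfl
    rw [e2] at h3
    have e3 : (l :: q).reverse ++ δ = q.reverse ++ l :: δ := by simp
    rw [e3]
    exact h3

theorem pop_all {P : List (ℕ × Kind × Form)} {S : ℕ} (x : List ℕ)
    (hx : ∀ l ∈ x, ((2 * l + 3, Sum.inr (Sum.inr (Sum.inr l)), []) : ℕ × Kind × Form) ∈ P)
    (u : List ℕ) :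
    Relation.ReflTransGen (Step (S, P)) (x, u.map Sum.inr ++ xw x) ([], u.map Sum.inr) := by
  induction x with
  | nil => simp [xw, Relation.ReflTransGen.refl]
  | cons l x ih =>
    have h1 : Step (S, P) (l :: x, u.map Sum.inr ++ (Sum.inl (2 * l + 3) :: xw x))
        (x, u.map Sum.inr ++ ([] ++ xw x)) :=
      Step.pop (2 * l + 3) l [] u (xw x) x (hx l (by simp))
    exact Relation.ReflTransGen.head h1 (ih fun l' hl' => hx l' (List.mem_cons_of_mem _ hl'))

theorem getD_mem (L : List (List ℕ)) (i l : ℕ) (h : l ∈ L.getD i []) : l ∈ L.flatten := by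
  rcases lt_or_ge i L.length with hi | hi
  · rw [List.getD_eq_getElem _ _ hi] at h
    exact List.mem_flatten.mpr ⟨L[i], List.getElem_mem hi, h⟩
  · rw [List.getD_eq_default _ _ hi] at h
    exact absurd h (by simp)

theorem mem_q {l : ℕ} (h : l ∈ G.flatten ∨ l ∈ H.flatten) :
    ((2 * l + 2, Sum.inr (Sum.inr (Sum.inl (l, 0))), []) : ℕ × Kind × Form) ∈ prods G H :=
  mem_prods.mpr (Or.inr (Or.inr ⟨l, h, Or.inl rfl⟩))

theorem mem_x {l : ℕ} (h : l ∈ G.flatten ∨ l ∈ H.flatten) :
    ((2 * l + 3, Sum.inr (Sum.inr (Sum.inr l)), []) : ℕ × Kind × Form) ∈ prods G H :=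
  mem_prods.mpr (Or.inr (Or.inr ⟨l, h, Or.inr rfl⟩))

theorem xw_append (a b : List ℕ) : xw (a ++ b) = xw a ++ xw b := by simp [xw]

/-- One domino after its right-hand side has been written. -/
theorem domino (i : ℕ) (u δ y : List ℕ) : ∃ u' : List ℕ,
    Relation.ReflTransGen (Step (gr (G, H)))
      (δ, u.map Sum.inr ++ (rhs (G.getD i []) (H.getD i []) ++ xw y))
      ((G.getD i []).reverse ++ δ, u'.map Sum.inr ++
        (Sum.inl 1 :: xw ((H.getD i []).reverse ++ y))) := by
  refine ⟨u ++ List.replicate (G.getD i []).length 0, ?_⟩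
  have h := push_all (P := prods G H) (S := 0) (G.getD i [])
    (fun l hl => mem_q G H (Or.inl (getD_mem G i l hl))) u δ
    (Sum.inl 1 :: xw (H.getD i []).reverse ++ xw y)
  have e1 : rhs (G.getD i []) (H.getD i []) ++ xw y =
      qw (G.getD i []) ++ (Sum.inl 1 :: xw (H.getD i []).reverse ++ xw y) := by
    simp [rhs]
  have e2 : (Sum.inl 1 :: xw ((H.getD i []).reverse ++ y) : Form) =
      Sum.inl 1 :: xw (H.getD i []).reverse ++ xw y := by
    rw [xw_append]; rfl
  rw [e1, e2]
  exact h

theorem dominoes (v : List ℕ) (hv : ∀ i ∈ v, i < G.length) (u δ y : List ℕ) : ∃ u' : List ℕ,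
    Relation.ReflTransGen (Step (gr (G, H)))
      (δ, u.map Sum.inr ++ (Sum.inl 1 :: xw y))
      ((app G v).reverse ++ δ, u'.map Sum.inr ++ (Sum.inl 1 :: xw ((app H v).reverse ++ y))) := by
  induction v generalizing u δ y with
  | nil => exact ⟨u, by simp [app, Relation.ReflTransGen.refl]⟩
  | cons i v ih =>
    have h1 : Step (gr (G, H)) (δ, u.map Sum.inr ++ (Sum.inl 1 :: xw y))
        (δ, u.map Sum.inr ++ (rhs (G.getD i []) (H.getD i []) ++ xw y)) := by
      refine Step.plain 1 _ u (xw y) δ ?_
      exact mem_prods.mpr (Or.inr (Or.inl ⟨i, hv i (by simp), Or.inr rfl⟩))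
    obtain ⟨u1, h2⟩ := domino G H i u δ y
    obtain ⟨u2, h3⟩ := ih (fun j hj => hv j (List.mem_cons_of_mem _ hj)) u1
      ((G.getD i []).reverse ++ δ) ((H.getD i []).reverse ++ y)
    refine ⟨u2, ?_⟩
    have h4 := Relation.ReflTransGen.head h1 (h2.trans h3)
    have e1 : (app G (i :: v)).reverse ++ δ = (app G v).reverse ++ ((G.getD i []).reverse ++ δ) := by
      simp [app]
    have e2 : (app H (i :: v)).reverse ++ y = (app H v).reverse ++ ((H.getD i []).reverse ++ y) := by
      simp [app]
    rw [e1, e2]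
    exact h4

theorem complete {v : List ℕ} (h0 : v ≠ []) (hv : ∀ i ∈ v, i < G.length)
    (h : app G v = app H v) : ∃ w, w ∈ lang (gr (G, H)) := by
  cases v with
  | nil => exact absurd rfl h0
  | cons i v =>
    have h1 : Step (gr (G, H)) ([], ([] : List ℕ).map Sum.inr ++ (Sum.inl 0 :: []))
        ([], ([] : List ℕ).map Sum.inr ++ (rhs (G.getD i []) (H.getD i []) ++ [])) := by
      refine Step.plain 0 _ [] [] [] ?_
      exact mem_prods.mpr (Or.inr (Or.inl ⟨i, hv i (by simp), Or.inl rfl⟩))
    obtain ⟨u1, h2⟩ := domino G H i [] [] []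
    obtain ⟨u2, h3⟩ := dominoes G H v (fun j hj => hv j (List.mem_cons_of_mem _ hj)) u1
      ((G.getD i []).reverse ++ []) ((H.getD i []).reverse ++ [])
    have h4 : Step (gr (G, H))
        ((app G v).reverse ++ ((G.getD i []).reverse ++ []), u2.map Sum.inr ++
          (Sum.inl 1 :: xw ((app H v).reverse ++ ((H.getD i []).reverse ++ []))))
        ((app G v).reverse ++ ((G.getD i []).reverse ++ []), u2.map Sum.inr ++
          ([] ++ xw ((app H v).reverse ++ ((H.getD i []).reverse ++ [])))) := by
      refine Step.plain 1 [] u2 _ _ ?_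
      exact mem_prods.mpr (Or.inl rfl)
    have e1 : (app G v).reverse ++ ((G.getD i []).reverse ++ []) =
        (app H v).reverse ++ ((H.getD i []).reverse ++ []) := by
      have : (app G (i :: v)).reverse = (app H (i :: v)).reverse := by rw [h]
      simpa [app] using this
    have h5 := pop_all (P := prods G H) (S := 0)
      ((app H v).reverse ++ ((H.getD i []).reverse ++ []))
      (by
        intro l hl
        refine mem_x G H (Or.inr ?_)
        rcases List.mem_append.mp hl with hl | hl
        · rw [List.mem_reverse, app, List.mem_flatMap] at hl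
          obtain ⟨j, -, hj⟩ := hl
          exact getD_mem H j l hj
        · rw [List.append_nil, List.mem_reverse] at hl
          exact getD_mem H i l hl) u2
    refine ⟨u2, ?_⟩
    have h6 : Relation.ReflTransGen (Step (gr (G, H)))
        ([], ([] : List ℕ).map Sum.inr ++ (Sum.inl 0 :: [])) ([], u2.map Sum.inr) := by
      refine Relation.ReflTransGen.head h1 (h2.trans (h3.trans (Relation.ReflTransGen.head h4 ?_)))
      rw [e1]
      exact h5
    exact h6

end

theorem qw_primrec : Primrec qw := by
  refine Primrec.list_map Primrec.id ?_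
  exact (Primrec.sumInl.comp (Primrec.succ.comp (Primrec.succ.comp
    (Primrec.nat_mul.comp (Primrec.const 2) Primrec.snd)))).to₂

theorem xw_primrec : Primrec xw := by
  refine Primrec.list_map Primrec.id ?_
  exact (Primrec.sumInl.comp (Primrec.succ.comp (Primrec.succ.comp (Primrec.succ.comp
    (Primrec.nat_mul.comp (Primrec.const 2) Primrec.snd))))).to₂

theorem rhs_primrec : Primrec₂ rhs := by
  have h : Primrec fun p : List ℕ × List ℕ => qw p.1 ++ Sum.inl 1 :: xw p.2.reverse :=
    Primrec.list_append.comp (qw_primrec.comp Primrec.fst)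
      (Primrec.list_cons.comp (Primrec.const _)
        (xw_primrec.comp (Primrec.list_reverse.comp Primrec.snd)))
  exact h

theorem prods_primrec : Primrec₂ prods := by
  have h1 : Primrec fun p : (List (List ℕ) × List (List ℕ)) × ℕ =>
      rhs (p.1.1.getD p.2 []) (p.1.2.getD p.2 []) :=
    rhs_primrec.comp
      ((Primrec.list_getD []).comp (Primrec.fst.comp Primrec.fst) Primrec.snd)
      ((Primrec.list_getD []).comp (Primrec.snd.comp Primrec.fst) Primrec.snd)
  have h2 : Primrec₂ fun (p : List (List ℕ) × List (List ℕ)) (i : ℕ) =>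
      ([(0, Sum.inl (), rhs (p.1.getD i []) (p.2.getD i [])),
       (1, Sum.inl (), rhs (p.1.getD i []) (p.2.getD i []))] : List (ℕ × Kind × Form)) := by
    refine Primrec.list_cons.comp ?_ (Primrec.list_cons.comp ?_ (Primrec.const []))
    · exact Primrec.pair (Primrec.const 0) (Primrec.pair (Primrec.const _) h1)
    · exact Primrec.pair (Primrec.const 1) (Primrec.pair (Primrec.const _) h1)
  have h3 : Primrec fun p : (List (List ℕ) × List (List ℕ)) × ℕ => p.2 + p.2 + 2 := by
    exact Primrec.nat_add.comp (Primrec.nat_add.comp Primrec.snd Primrec.snd) (Primrec.const 2)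
  have h4 : Primrec₂ fun (p : List (List ℕ) × List (List ℕ)) (l : ℕ) =>
      ([(2 * l + 2, Sum.inr (Sum.inr (Sum.inl (l, 0))), []),
       (2 * l + 3, Sum.inr (Sum.inr (Sum.inr l)), [])] : List (ℕ × Kind × Form)) := by
    refine Primrec.list_cons.comp ?_ (Primrec.list_cons.comp ?_ (Primrec.const []))
    · refine Primrec.pair ?_ (Primrec.pair ?_ (Primrec.const []))
      · exact Primrec.succ.comp (Primrec.succ.comp
          (Primrec.nat_mul.comp (Primrec.const 2) Primrec.snd))
      · exact Primrec.sumInr.comp (Primrec.sumInr.comp (Primrec.sumInl.comp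
          (Primrec.pair Primrec.snd (Primrec.const 0))))
    · refine Primrec.pair ?_ (Primrec.pair ?_ (Primrec.const []))
      · exact Primrec.succ.comp (Primrec.succ.comp (Primrec.succ.comp
          (Primrec.nat_mul.comp (Primrec.const 2) Primrec.snd)))
      · exact Primrec.sumInr.comp (Primrec.sumInr.comp (Primrec.sumInr.comp Primrec.snd))
  have h5 : Primrec fun p : List (List ℕ) × List (List ℕ) => prods p.1 p.2 := by
    refine Primrec.list_cons.comp (Primrec.const _) (Primrec.list_append.comp ?_ ?_)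
    · exact Primrec.list_flatMap
        (Primrec.list_range.comp (Primrec.list_length.comp Primrec.fst)) h2
    · exact Primrec.list_flatMap
        (Primrec.list_append.comp (Primrec.list_flatten.comp Primrec.fst)
          (Primrec.list_flatten.comp Primrec.snd)) h4
  exact h5

theorem gr_primrec : Primrec gr := by
  have : Primrec₂ prods := prods_primrec
  exact Primrec.pair (Primrec.const 0) (this.comp Primrec.fst Primrec.snd)

end Pool.Agent.V11232.GI
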