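import Mathlib

/-!
Global index grammars. Nonterminals, terminals and stack indices are natural numbers; in a
sentential form `Sum.inl A` is the nonterminal `A` and `Sum.inr a` is the terminal `a`. The stack
is a list of indices with the top at the head; the bottom symbol is not written.
-/

namespace Pool.Agent.V11232.GI

/-- The kind of a production: `Sum.inl ()` is a context-free production (i.1),
`Sum.inr (Sum.inl y)` is a production (i.2) which tests that the top symbol is `y` (`none` is the
bottom symbol), `Sum.inr (Sum.inr (Sum.inl (x, a)))` is a production (ii) which pushes the index `x`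
and writes the terminal `a` in front of the right-hand side, `Sum.inr (Sum.inr (Sum.inr x))` is a
production (iii) which pops the index `x`. -/
abbrev Kind : Type := Unit ⊕ Option ℕ ⊕ (ℕ × ℕ) ⊕ ℕ

/-- Words over nonterminals and terminals. -/
abbrev Form : Type := List (ℕ ⊕ ℕ)

/-- A global index grammar: the start symbol and the list of the productions, given by the left-hand
side, the kind and the right-hand side `α`. -/
abbrev GIG : Type := ℕ × List (ℕ × Kind × Form)

/-- A leftmost derivation step of configurations (stack, sentential form). -/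
inductive Step (G : GIG) : List ℕ × Form → List ℕ × Form → Prop
  | plain (A : ℕ) (α : Form) (u : List ℕ) (γ : Form) (δ : List ℕ)
      (h : (A, Sum.inl (), α) ∈ G.2) :
      Step G (δ, u.map Sum.inr ++ Sum.inl A :: γ) (δ, u.map Sum.inr ++ (α ++ γ))
  | test (A : ℕ) (y : Option ℕ) (α : Form) (u : List ℕ) (γ : Form) (δ : List ℕ)
      (h : (A, Sum.inr (Sum.inl y), α) ∈ G.2) (hy : δ.head? = y) :
      Step G (δ, u.map Sum.inr ++ Sum.inl A :: γ) (δ, u.map Sum.inr ++ (α ++ γ))
  | push (A x a : ℕ) (α : Form) (u : List ℕ) (γ : Form) (δ : List ℕ)
      (h : (A, Sum.inr (Sum.inr (Sum.inl (x, a))), α) ∈ G.2) :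
      Step G (δ, u.map Sum.inr ++ Sum.inl A :: γ) (x :: δ, u.map Sum.inr ++ (Sum.inr a :: α ++ γ))
  | pop (A x : ℕ) (α : Form) (u : List ℕ) (γ : Form) (δ : List ℕ)
      (h : (A, Sum.inr (Sum.inr (Sum.inr x)), α) ∈ G.2) :
      Step G (x :: δ, u.map Sum.inr ++ Sum.inl A :: γ) (δ, u.map Sum.inr ++ (α ++ γ))

/-- The language of a global index grammar: the terminal words derivable from the start symbol with
an empty stack (only the bottom symbol) at the beginning and at the end. -/
def lang (G : GIG) : Language ℕ :=
  {w | Relation.ReflTransGen (Step G) ([], [Sum.inl G.1]) ([], w.map Sum.inr)}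

end Pool.Agent.V11232.GI
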