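import Pool.Agent.V11232.GI.Def
import Pool.Agent.Helper247.Elem.Family

namespace Pool.Agent.V11232.GI

/-- Pushing nonterminals. -/
def qw (u : List ℕ) : Form := u.map fun l => Sum.inl (2 * l + 2)
/-- Popping nonterminals. -/
def xw (u : List ℕ) : Form := u.map fun l => Sum.inl (2 * l + 3)

/-- The right-hand side for a domino. -/
def rhs (g h : List ℕ) : Form := qw g ++ Sum.inl 1 :: xw h.reverse

/-- The productions. -/
def prods (G H : List (List ℕ)) : List (ℕ × Kind × Form) :=
  (1, Sum.inl (), []) :: ((List.range G.length).flatMap (fun i =>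
    [(0, Sum.inl (), rhs (G.getD i []) (H.getD i [])),
     (1, Sum.inl (), rhs (G.getD i []) (H.getD i []))]) ++
    (G.flatten ++ H.flatten).flatMap fun l =>
      [(2 * l + 2, Sum.inr (Sum.inr (Sum.inl (l, 0))), []),
       (2 * l + 3, Sum.inr (Sum.inr (Sum.inr l)), [])])

/-- The grammar. -/
def gr (p : List (List ℕ) × List (List ℕ)) : GIG := (0, prods p.1 p.2)

/-- The value of an index word. -/
def app (L : List (List ℕ)) (w : List ℕ) : List ℕ := w.flatMap fun i => L.getD i []

theorem mem_prods {G H : List (List ℕ)} {q : ℕ × Kind × Form} : q ∈ prods G H ↔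
    q = (1, Sum.inl (), []) ∨
    (∃ i < G.length, q = (0, Sum.inl (), rhs (G.getD i []) (H.getD i [])) ∨
      q = (1, Sum.inl (), rhs (G.getD i []) (H.getD i []))) ∨
    (∃ l, (l ∈ G.flatten ∨ l ∈ H.flatten) ∧
      (q = (2 * l + 2, Sum.inr (Sum.inr (Sum.inl (l, 0))), []) ∨
       q = (2 * l + 3, Sum.inr (Sum.inr (Sum.inr l)), []))) := by
  simp only [prods, List.mem_cons, List.mem_append, List.mem_flatMap, List.mem_range,
    List.not_mem_nil, or_false]

/-- The leftmost nonterminal is determined. -/
theorem left_unique {u v : List ℕ} {A B : ℕ} {γ γ' : Form}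
    (h : u.map Sum.inr ++ (Sum.inl A :: γ) = v.map Sum.inr ++ (Sum.inl B :: γ')) :
    u = v ∧ A = B ∧ γ = γ' := by
  induction u generalizing v with
  | nil =>
    cases v with
    | nil =>
      have := List.cons.inj h
      exact ⟨rfl, Sum.inl.inj this.1, this.2⟩
    | cons b v => simp at h
  | cons a u ih =>
    cases v with
    | nil => simp at h
    | cons b v =>
      rw [List.map_cons, List.map_cons, List.cons_append, List.cons_append] at h
      obtain ⟨h1, h2⟩ := List.cons.inj h
      obtain ⟨h3, h4, h5⟩ := ih h2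
      exact ⟨by rw [Sum.inr.inj h1, h3], h4, h5⟩

theorem left_none {u v : List ℕ} {A : ℕ} {γ : Form}
    (h : u.map Sum.inr = v.map Sum.inr ++ (Sum.inl A :: γ)) : False := by
  have : (Sum.inl A : ℕ ⊕ ℕ) ∈ (u.map Sum.inr : Form) := by rw [h]; simp
  simp at this

section

variable (G H : List (List ℕ))

/-- The invariant. -/
inductive Inv : List ℕ × Form → Prop
  | start : Inv ([], [Sum.inl 0])
  | grow (w : List ℕ) (u q δ : List ℕ) : w ≠ [] → (∀ i ∈ w, i < G.length) →
      δ.reverse ++ q = app G w →
      Inv (δ, u.map Sum.inr ++ (qw q ++ Sum.inl 1 :: xw (app H w).reverse))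
  | final (w : List ℕ) (u p x δ : List ℕ) : w ≠ [] → (∀ i ∈ w, i < G.length) →
      (app G w).reverse = p ++ δ → (app H w).reverse = p ++ x → Inv (δ, u.map Sum.inr ++ xw x)

theorem app_snoc (L : List (List ℕ)) (w : List ℕ) (i : ℕ) :
    app L (w ++ [i]) = app L w ++ L.getD i [] := by
  simp [app]

/-- The successor by a step from a form with a given leftmost nonterminal. -/
theorem step_inv {P : GIG} {δ : List ℕ} {u : List ℕ} {A : ℕ} {γ : Form} {c' : List ℕ × Form}
    (h : Step P (δ, u.map Sum.inr ++ (Sum.inl A :: γ)) c') :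
    (∃ α, (A, Sum.inl (), α) ∈ P.2 ∧ c' = (δ, u.map Sum.inr ++ (α ++ γ))) ∨
    (∃ y α, (A, Sum.inr (Sum.inl y), α) ∈ P.2 ∧ c' = (δ, u.map Sum.inr ++ (α ++ γ))) ∨
    (∃ x a α, (A, Sum.inr (Sum.inr (Sum.inl (x, a))), α) ∈ P.2 ∧
      c' = (x :: δ, u.map Sum.inr ++ (Sum.inr a :: α ++ γ))) ∨
    (∃ x α δ', (A, Sum.inr (Sum.inr (Sum.inr x)), α) ∈ P.2 ∧ δ = x :: δ' ∧
      c' = (δ', u.map Sum.inr ++ (α ++ γ))) := by
  generalize hc : (δ, u.map Sum.inr ++ (Sum.inl A :: γ)) = c at h
  cases h with
  | plain A' α u' γ' δ' h =>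
    obtain ⟨e1, e2⟩ := Prod.mk.inj hc
    obtain ⟨rfl, rfl, rfl⟩ := left_unique e2
    subst e1
    exact Or.inl ⟨α, h, rfl⟩
  | test A' y α u' γ' δ' h hy =>
    obtain ⟨e1, e2⟩ := Prod.mk.inj hc
    obtain ⟨rfl, rfl, rfl⟩ := left_unique e2
    subst e1
    exact Or.inr (Or.inl ⟨y, α, h, rfl⟩)
  | push A' x a α u' γ' δ' h =>
    obtain ⟨e1, e2⟩ := Prod.mk.inj hc
    obtain ⟨rfl, rfl, rfl⟩ := left_unique e2
    subst e1
    exact Or.inr (Or.inr (Or.inl ⟨x, a, α, h, rfl⟩))
  | pop A' x α u' γ' δ' h =>
    obtain ⟨e1, e2⟩ := Prod.mk.inj hc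
    obtain ⟨rfl, rfl, rfl⟩ := left_unique e2
    exact Or.inr (Or.inr (Or.inr ⟨x, α, δ', h, e1, rfl⟩))

theorem no_step_term {P : GIG} {δ : List ℕ} {u : List ℕ} {c' : List ℕ × Form}
    (h : Step P (δ, u.map Sum.inr) c') : False := by
  generalize hc : (δ, u.map Sum.inr) = c at h
  cases h with
  | plain A' α u' γ' δ' h => exact left_none (Prod.mk.inj hc).2
  | test A' y α u' γ' δ' h hy => exact left_none (Prod.mk.inj hc).2
  | push A' x a α u' γ' δ' h => exact left_none (Prod.mk.inj hc).2
  | pop A' x α u' γ' δ' h => exact left_none (Prod.mk.inj hc).2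

theorem inv_step {c c' : List ℕ × Form} (h : Inv G H c) (hs : Step (gr (G, H)) c c') :
    Inv G H c' := by
  cases h with
  | start =>
    have hs' : Step (gr (G, H)) ([], ([] : List ℕ).map Sum.inr ++ (Sum.inl 0 :: [])) c' := hs
    rcases step_inv hs' with ⟨α, hm, rfl⟩ | ⟨y, α, hm, rfl⟩ | ⟨x, a, α, hm, rfl⟩ |
      ⟨x, α, δ', hm, e, -⟩
    · rcases mem_prods.mp hm with h | ⟨i, hi, h | h⟩ | ⟨l, -, h | h⟩
      · simp at h
      · have : α = rhs (G.getD i []) (H.getD i []) := by simpa using h
        rw [this, List.append_nil]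
        have := Inv.grow (G := G) (H := H) [i] [] (G.getD i []) [] (by simp)
          (by simpa using hi) (by simp [app])
        simpa [rhs, app] using this
      · simp at h
      · simp at h
      · simp at h
    · rcases mem_prods.mp hm with h | ⟨i, hi, h | h⟩ | ⟨l, -, h | h⟩ <;> simp at h
    · rcases mem_prods.mp hm with h | ⟨i, hi, h | h⟩ | ⟨l, -, h | h⟩ <;> simp at h
    · cases e
  | grow w u q δ h1 h2 h3 =>
    cases q with
    | nil =>
      have hs' : Step (gr (G, H)) (δ, u.map Sum.inr ++ (Sum.inl 1 :: xw (app H w).reverse)) c' :=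
        hs
      rw [List.append_nil] at h3
      rcases step_inv hs' with ⟨α, hm, rfl⟩ | ⟨y, α, hm, rfl⟩ | ⟨x, a, α, hm, rfl⟩ |
        ⟨x, α, δ', hm, e, -⟩
      · rcases mem_prods.mp hm with h | ⟨i, hi, h | h⟩ | ⟨l, -, h | h⟩
        · have : α = [] := by simpa using h
          rw [this, List.nil_append]
          refine Inv.final w u [] _ _ h1 h2 ?_ rfl
          rw [← h3]; simp
        · simp at h
        · have : α = rhs (G.getD i []) (H.getD i []) := by simpa using h
          rw [this]
          have := Inv.grow (G := G) (H := H) (w ++ [i]) u (G.getD i []) δ (by simp)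
            (by
              intro j hj
              rcases List.mem_append.mp hj with hj | hj
              · exact h2 j hj
              · rw [List.mem_singleton.mp hj]; exact hi)
            (by rw [app_snoc, h3])
          rw [app_snoc] at this
          simpa [rhs, xw] using this
        · exfalso
          have : (1 : ℕ) = 2 * l + 2 := (Prod.mk.inj h).1
          omega
        · exfalso
          have : (1 : ℕ) = 2 * l + 3 := (Prod.mk.inj h).1
          omega
      · rcases mem_prods.mp hm with h | ⟨i, hi, h | h⟩ | ⟨l, -, h | h⟩ <;> simp at h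
      · rcases mem_prods.mp hm with h | ⟨i, hi, h | h⟩ | ⟨l, -, h | h⟩
        · simp at h
        · simp at h
        · simp at h
        · exfalso
          have : (1 : ℕ) = 2 * l + 2 := (Prod.mk.inj h).1
          omega
        · simp at h
      · rcases mem_prods.mp hm with h | ⟨i, hi, h | h⟩ | ⟨l, -, h | h⟩
        · simp at h
        · simp at h
        · simp at h
        · simp at h
        · exfalso
          have : (1 : ℕ) = 2 * l + 3 := (Prod.mk.inj h).1
          omega
    | cons m q =>
      have hs' : Step (gr (G, H)) (δ, u.map Sum.inr ++ (Sum.inl (2 * m + 2) ::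
        (qw q ++ Sum.inl 1 :: xw (app H w).reverse))) c' := hs
      rcases step_inv hs' with ⟨α, hm, rfl⟩ | ⟨y, α, hm, rfl⟩ | ⟨x, a, α, hm, rfl⟩ |
        ⟨x, α, δ', hm, e, -⟩
      · exfalso
        rcases mem_prods.mp hm with h | ⟨i, hi, h | h⟩ | ⟨l, -, h | h⟩
        · have : 2 * m + 2 = 1 := (Prod.mk.inj h).1
          omega
        · have : 2 * m + 2 = 0 := (Prod.mk.inj h).1
          omega
        · have : 2 * m + 2 = 1 := (Prod.mk.inj h).1
          omega
        · simp at h
        · simp at h
      · rcases mem_prods.mp hm with h | ⟨i, hi, h | h⟩ | ⟨l, -, h | h⟩ <;> simp at h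
      · rcases mem_prods.mp hm with h | ⟨i, hi, h | h⟩ | ⟨l, -, h | h⟩
        · simp at h
        · simp at h
        · simp at h
        · have e : m = l ∧ x = l ∧ a = 0 ∧ α = [] := by
            simp only [Prod.mk.injEq, Sum.inr.injEq, Sum.inl.injEq] at h
            obtain ⟨a1, a2, a3⟩ := h
            grind
          obtain ⟨rfl, rfl, rfl, rfl⟩ := e
          have := Inv.grow (G := G) (H := H) w (u ++ [0]) q (x :: δ) h1 h2
            (by rw [List.reverse_cons, List.append_assoc]; exact h3)
          simpa using this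
        · simp at h
      · exfalso
        rcases mem_prods.mp hm with h | ⟨i, hi, h | h⟩ | ⟨l, -, h | h⟩
        · simp at h
        · simp at h
        · simp at h
        · simp at h
        · have : 2 * m + 2 = 2 * l + 3 := (Prod.mk.inj h).1
          omega
  | final w u p x δ h1 h2 h3 h4 =>
    cases x with
    | nil =>
      exfalso
      have hs' : Step (gr (G, H)) (δ, u.map Sum.inr) c' := by simpa [xw] using hs
      exact no_step_term hs'
    | cons m x =>
      have hs' : Step (gr (G, H)) (δ, u.map Sum.inr ++ (Sum.inl (2 * m + 3) :: xw x)) c' := hs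
      rcases step_inv hs' with ⟨α, hm, rfl⟩ | ⟨y, α, hm, rfl⟩ | ⟨z, a, α, hm, rfl⟩ |
        ⟨z, α, δ', hm, e, rfl⟩
      · exfalso
        rcases mem_prods.mp hm with h | ⟨i, hi, h | h⟩ | ⟨l, -, h | h⟩
        · have : 2 * m + 3 = 1 := (Prod.mk.inj h).1
          omega
        · have : 2 * m + 3 = 0 := (Prod.mk.inj h).1
          omega
        · have : 2 * m + 3 = 1 := (Prod.mk.inj h).1
          omega
        · simp at h
        · simp at h
      · rcases mem_prods.mp hm with h | ⟨i, hi, h | h⟩ | ⟨l, -, h | h⟩ <;> simp at h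
      · exfalso
        rcases mem_prods.mp hm with h | ⟨i, hi, h | h⟩ | ⟨l, -, h | h⟩
        · simp at h
        · simp at h
        · simp at h
        · have : 2 * m + 3 = 2 * l + 2 := (Prod.mk.inj h).1
          omega
        · simp at h
      · rcases mem_prods.mp hm with h | ⟨i, hi, h | h⟩ | ⟨l, -, h | h⟩
        · simp at h
        · simp at h
        · simp at h
        · simp at h
        · have e2 : m = l ∧ z = l ∧ α = [] := by
            simp only [Prod.mk.injEq, Sum.inr.injEq] at h
            obtain ⟨a1, a2, a3⟩ := h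
            grind
          obtain ⟨rfl, rfl, rfl⟩ := e2
          rw [List.nil_append]
          refine Inv.final w u (p ++ [z]) _ _ h1 h2 ?_ ?_
          · rw [h3, e]; simp
          · rw [h4]; simp

theorem sound {w : List ℕ} (h : w ∈ lang (gr (G, H))) :
    ∃ v : List ℕ, v ≠ [] ∧ (∀ i ∈ v, i < G.length) ∧ app G v = app H v := by
  have hinv : ∀ c, Relation.ReflTransGen (Step (gr (G, H))) ([], [Sum.inl 0]) c → Inv G H c := by
    intro c h
    induction h with
    | refl => exact Inv.start
    | tail _ hs ih => exact inv_step G H ih hs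
  have h1 := hinv _ h
  generalize hc : (([] : List ℕ), (w.map Sum.inr : Form)) = c at h1
  cases h1 with
  | start =>
    have := (Prod.mk.inj hc).2
    exact absurd (by rw [this]; simp : (Sum.inl 0 : ℕ ⊕ ℕ) ∈ (w.map Sum.inr : Form)) (by simp)
  | grow v u q δ h1 h2 h3 =>
    have := (Prod.mk.inj hc).2
    exact absurd (by rw [this]; simp : (Sum.inl 1 : ℕ ⊕ ℕ) ∈ (w.map Sum.inr : Form)) (by simp)
  | final v u p x δ h1 h2 h3 h4 =>
    obtain ⟨e1, e2⟩ := Prod.mk.inj hc
    cases x with
    | nil =>
      subst e1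
      refine ⟨v, h1, h2, ?_⟩
      have : (app G v).reverse = (app H v).reverse := by rw [h3, h4]
      exact List.reverse_injective this
    | cons m x =>
      exact absurd (by rw [e2]; simp [xw] : (Sum.inl (2 * m + 3) : ℕ ⊕ ℕ) ∈
        (w.map Sum.inr : Form)) (by simp)

end

end Pool.Agent.V11232.GI
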